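import Pool.Agent.Helper88_SA.StmtP

/-! Module EBND of part C: the classes, E and R are small. -/

namespace SA.H21

open SA Filter Topology

theorem valid_lt {T x0 z : ℝ} {th : ℂ} (c : Ctx T x0 z th) {k : ℕ} (hk : HH T x0 z th k) :
    ∀ m, m < 1525 + k → Valid T m := by
  intro m hm
  rcases lt_or_ge m 1525 with h | h
  · exact c.sim.valid m h
  · obtain ⟨i, rfl⟩ := Nat.exists_eq_add_of_le h
    exact (hk i (by omega)).val

/-- W is at most 4 C before 1525 + k -/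
theorem W_le {T x0 z : ℝ} {th : ℂ} (c : Ctx T x0 z th) {k : ℕ} (hk : HH T x0 z th k)
    (hP : (∀ m1 m2, 171 ≤ m1 → m1 ≤ m2 → m2 ≤ 1525 + k →
      Cn T x0 m2 * x0 ^ (m2 - m1) ≤ Cn T x0 m1)) :
    ∀ m, 245 ≤ m → m < 1525 + k → Wn T m ≤ 4 * Cn T x0 m := by
  intro m hm1 hm2
  rcases lt_or_ge m 1525 with h | h
  · have h1 := c.sim.Wle m hm1 h
    have h2 := hP m 1525 (by omega) (by omega) (by omega)
    linarith
  · obtain ⟨i, rfl⟩ := Nat.exists_eq_add_of_le h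
    exact (hk i (by omega)).Wle

theorem ebnd (hA : AlgA) (hSep : SepStmt) (hProd : ProdStmt) : EbndStmt := by
  intro T x0 z th c k hk
  obtain ⟨hs1, hs2⟩ := hSep T x0 z th c k hk
  obtain ⟨hC, hP2, -, hP4⟩ := hProd T x0 z th c k hk
  have hv := valid_lt c hk
  have hW := W_le c hk hP2
  have hx1 : (1 : ℝ) ≤ x0 := by
    have := c.nr.x0_lo
    norm_num at this ⊢
    linarith
  have hT0 : (36.95 : ℝ) ≤ T := by
    have := c.nr.T_lo
    norm_num at this ⊢
    linarith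
  have hT1 : T ≤ (36.96 : ℝ) := by
    have := c.nr.T_hi
    norm_num at this ⊢
    linarith
  have hTpos : 0 < T := by norm_num at hT0; linarith
  have hN : ∀ m, 324 ≤ m → m < 1525 + k → ∀ d, 1 ≤ d → d ≤ 55 →
      Nd T m d ≤ 4.05 * x0 ^ (d + 10) * Cn T x0 m := by
    intro m hm1 hm2 d hd1 hd2
    obtain ⟨m', g1, g2, g3⟩ := hA.nbound T m (by omega) (fun i hi => hv i (by omega))
      (fun i h1 h2 => hs1 i h1 (by omega)) (fun i i' h1 h2 h3 h4 h5 => hs2 i i' h1 h2 (by omega) h4 h5)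
      d hd1 hd2
    have g4 := hA.wpos T m' (by omega) (fun i hi => hv i (by omega))
    have g5 := hW m' (by omega) (by omega)
    have g6 := hC m' (by omega) (by omega)
    have g7 := hP4 m' m (by omega) (by omega) (by omega) (by omega)
    have g8 := hC m (by omega) (by omega)
    have g9 : x0 ^ (m - m') ≤ x0 ^ (d + 10) := pow_le_pow_right₀ hx1 (by omega)
    have g10 : max (Bn T m' - (gr T m').Q 0) 0 ≤ 4 * Cn T x0 m' := by
      refine max_le (g4.trans (max_le g5 (by linarith))) (by linarith)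
    have g11 : Cn T x0 m * x0 ^ (m - m') ≤ Cn T x0 m * x0 ^ (d + 10) :=
      mul_le_mul_of_nonneg_left g9 g8.le
    have g12 : 0 ≤ Cn T x0 m * x0 ^ (d + 10) := by positivity
    norm_num at g7 ⊢
    nlinarith [g3, g10, g7, g11, g12]
  have hN0 : ∀ m d, 1 ≤ d → d ≤ 55 → 0 ≤ Nd T m d := by
    intro m d hd1 hd2
    have := (hA.sort T m).1 (d - 1) d (by omega) (by omega)
    unfold Nd
    linarith
  have hE : ∀ m, 324 ≤ m → m < 1525 + k → (gr T m).E ≤ 0.9643 * Ebar x0 * Cn T x0 m := by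
    intro m hm1 hm2
    have e1 := hA.ebd T m hTpos (fun i hi => hv i (by omega))
    have g4 := hA.wpos T m (by omega) (fun i hi => hv i (by omega))
    have g5 := hW m (by omega) (by omega)
    have g8 := hC m (by omega) (by omega)
    have g10 : max (Bn T m - (gr T m).Q 0) 0 ≤ 4 * Cn T x0 m := by
      refine max_le (g4.trans (max_le g5 (by linarith))) (by linarith)
    have e2 : ∑ d ∈ Finset.Icc (1 : ℕ) 55, (56 - (d : ℝ)) * Nd T m d
        ≤ ∑ d ∈ Finset.Icc (1 : ℕ) 55, 0.9643 * ((56 - (d : ℝ)) * (4.2 * x0 ^ (d + 10))) * Cn T x0 m := by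
      refine Finset.sum_le_sum fun d hd => ?_
      rw [Finset.mem_Icc] at hd
      have h1 := hN m hm1 hm2 d hd.1 hd.2
      have h2 : (d : ℝ) ≤ 55 := by exact_mod_cast hd.2
      have h3 : 0 ≤ x0 ^ (d + 10) * Cn T x0 m := by positivity
      have h4 : Nd T m d ≤ 0.9643 * (4.2 * x0 ^ (d + 10)) * Cn T x0 m := by
        norm_num at h1 ⊢
        nlinarith
      have h5 : (0 : ℝ) ≤ 56 - d := by linarith
      calc (56 - (d : ℝ)) * Nd T m d ≤ (56 - (d : ℝ)) * (0.9643 * (4.2 * x0 ^ (d + 10)) * Cn T x0 m) :=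
            mul_le_mul_of_nonneg_left h4 h5
        _ = _ := by ring
    have e3 : ∑ d ∈ Finset.Icc (1 : ℕ) 55, 0.9643 * ((56 - (d : ℝ)) * (4.2 * x0 ^ (d + 10))) * Cn T x0 m
        = 0.9643 * (∑ d ∈ Finset.Icc (1 : ℕ) 55, (56 - (d : ℝ)) * (4.2 * x0 ^ (d + 10))) * Cn T x0 m := by
      rw [Finset.mul_sum, Finset.sum_mul]
    unfold Ebar
    rw [e3] at e2
    generalize (∑ d ∈ Finset.Icc (1 : ℕ) 55, (56 - (d : ℝ)) * (4.2 * x0 ^ (d + 10))) = S at e2 ⊢
    generalize (∑ d ∈ Finset.Icc (1 : ℕ) 55, (56 - (d : ℝ)) * Nd T m d) = S' at e1 e2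
    norm_num at e2 ⊢
    nlinarith
  have hE0 : ∀ m, m < 1525 + k → 0 ≤ (gr T m).E := fun m hm => (hA.bar T m (hv m hm)).2.1
  refine ⟨fun m hm1 hm2 => ⟨fun d hd1 hd2 => ⟨hN0 m d hd1 hd2, hN m hm1 hm2 d hd1 hd2⟩,
    hE0 m hm2, hE m hm1 hm2⟩, fun m hm1 hm2 => ?_⟩
  obtain ⟨n, rfl⟩ : ∃ n, m = n + 1 := ⟨m - 1, by omega⟩
  have h1 := (hA.cstep T n (hv n (by omega))).2.1
  have h2 : (gr T (n + 1)).R = T * ((gr T n).E - (gr T (n + 1)).E) := by
    rw [h1]
    field_simp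
    ring
  have h3 := hE0 n (by omega)
  have h4 := hE0 (n + 1) hm2
  have h5 := hE n (by omega) (by omega)
  have h6 := hE (n + 1) (by omega) hm2
  have h7 := hP4 n (n + 1) (by omega) (by omega) (by omega) (by omega)
  have h8 := hC n (by omega) (by omega)
  have h9 := hC (n + 1) (by omega) (by omega)
  have hEb : 0 ≤ Ebar x0 := by
    unfold Ebar
    have : 0 ≤ ∑ d ∈ Finset.Icc (1 : ℕ) 55, (56 - (d : ℝ)) * (4.2 * x0 ^ (d + 10)) := by
      refine Finset.sum_nonneg fun d hd => ?_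
      rw [Finset.mem_Icc] at hd
      have h2 : (d : ℝ) ≤ 55 := by exact_mod_cast hd.2
      have h5 : (0 : ℝ) ≤ 56 - d := by linarith
      positivity
    norm_num at this ⊢
    linarith
  have hxu : x0 ≤ 1.0381 := by
    have := c.nr.x0_hi
    norm_num at this ⊢
    linarith
  have e1 : n + 1 - n = 1 := by omega
  rw [e1, pow_one] at h7
  have h10 : Cn T x0 n ≤ 1.0413 * Cn T x0 (n + 1) := by
    have q := mul_le_mul_of_nonneg_left hxu h9.le
    clear h1 h2 h3 h4 h5 h6 hxu hE hE0 hN hN0 hv hW hC hP2 hP4 hs1 hs2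
    generalize Cn T x0 (n + 1) * x0 = u at *
    generalize Cn T x0 (n + 1) = w at *
    generalize Cn T x0 n = v at *
    norm_num at h7 q ⊢
    linarith
  have h13 : 0 ≤ Ebar x0 * Cn T x0 (n + 1) := by positivity
  have h11 : (gr T n).E ≤ 1.0042 * Ebar x0 * Cn T x0 (n + 1) := by
    have h12 : Ebar x0 * Cn T x0 n ≤ Ebar x0 * (1.0413 * Cn T x0 (n + 1)) :=
      mul_le_mul_of_nonneg_left h10 hEb
    have h12' : Ebar x0 * (1.0413 * Cn T x0 (n + 1)) = 1.0413 * (Ebar x0 * Cn T x0 (n + 1)) := by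
      ring
    rw [h12'] at h12
    rw [mul_assoc] at h5 ⊢
    clear h1 h2 h3 h4 h6 hxu hE hE0 hN hN0 hv hW hC hP2 hP4 hs1 hs2 h12'
    generalize Ebar x0 * Cn T x0 (n + 1) = u at *
    generalize Ebar x0 * Cn T x0 n = v at *
    norm_num at h12 h5 ⊢
    linarith
  have h12 : (gr T (n + 1)).E ≤ 1.0042 * Ebar x0 * Cn T x0 (n + 1) := by
    rw [mul_assoc] at h6 ⊢
    clear h1 h2 h3 h4 h5 h7 hxu hE hE0 hN hN0 hv hW hC hP2 hP4 hs1 hs2
    generalize Ebar x0 * Cn T x0 (n + 1) = u at *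
    norm_num at h6 ⊢
    linarith
  rw [h2, abs_mul, abs_of_pos hTpos]
  have h14 : |(gr T n).E - (gr T (n + 1)).E| ≤ 1.0042 * Ebar x0 * Cn T x0 (n + 1) := by
    rw [abs_le]
    constructor <;> linarith
  calc T * |(gr T n).E - (gr T (n + 1)).E| ≤ T * (1.0042 * Ebar x0 * Cn T x0 (n + 1)) :=
        mul_le_mul_of_nonneg_left h14 hTpos.le
    _ = (T * 1.0042) * (Ebar x0 * Cn T x0 (n + 1)) := by ring
    _ ≤ 38 * (Ebar x0 * Cn T x0 (n + 1)) := by
        refine mul_le_mul_of_nonneg_right ?_ h13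
        norm_num at hT1 ⊢
        linarith
    _ = _ := by ring

end SA.H21
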