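import Pool.Agent.Helper88_SA.StmtG

/-! Module KPOS of part GAME. -/

namespace SA.H21

open SA

theorem kpos (hG : GreedyFlowStmt) (hP : GamPosStmt) : KickPosStmt := by
  intro T z hT hz0 hz1 hg hS n
  obtain ⟨hflow, -, -, -⟩ := hG T hT hS
  have hpos := hP T z (by linarith) hz0 hz1 hg
  have hterm : ∀ r ∈ Finset.range 56, 0 ≤ (gmu T n r - gsg T n r) * gam T z r := by
    intro r hr
    rw [Finset.mem_range] at hr
    rcases Nat.eq_zero_or_pos r with h0 | h0
    · subst h0
      simp [gam]
    · have h1 := hflow.sg_le n r
      have h2 := hpos r h0 (by omega)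
      exact mul_nonneg (by linarith) h2.le
  have hsum := Finset.sum_nonneg hterm
  refine ⟨hsum, fun hk => ?_⟩
  rcases hsum.lt_or_eq with h | h
  · exact h
  · exfalso
    have hz := (Finset.sum_eq_zero_iff_of_nonneg hterm).1 h.symm
    obtain ⟨j, hj⟩ := Finset.card_pos.1 hk
    rw [Finset.mem_filter, Finset.mem_range] at hj
    have hv := hS.valid n
    have hh : ∀ r, r ≤ 55 → (gr T n).Q (55 - r) - min (gr T n).B ((gr T n).Q (55 - r)) = 0 := by
      intro r
      induction r with
      | zero =>
        intro _
        rw [Nat.sub_zero, min_eq_right hv, sub_self]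
      | succ r ih =>
        intro hr
        have h1 := ih (by omega)
        have h2 := hz (r + 1) (Finset.mem_range.2 (by omega))
        have h3 := hpos (r + 1) (by omega) hr
        have h4 : gmu T n (r + 1) - gsg T n (r + 1) = 0 := by
          rcases mul_eq_zero.1 h2 with h | h
          · exact h
          · exact absurd h h3.ne'
        have e1 : gmu T n (r + 1) = (gr T n).Q (55 - (r + 1)) - (gr T n).Q (56 - (r + 1)) := by
          unfold gmu
          rw [if_neg (by omega), if_pos (by omega)]
        have e2 : gsg T n (r + 1) = min (gr T n).B ((gr T n).Q (55 - (r + 1)))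
            - min (gr T n).B ((gr T n).Q (56 - (r + 1))) := by
          unfold gsg
          rw [if_neg (by omega), if_pos (by omega)]
        rw [e1, e2] at h4
        have e3 : 56 - (r + 1) = 55 - r := by omega
        rw [e3] at h4
        linarith
    have h5 := hh (55 - j) (by omega)
    have e4 : 55 - (55 - j) = j := by omega
    rw [e4, min_eq_left hj.2.le] at h5
    linarith [hj.2]

end SA.H21
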