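import Pool.Agent.Helper88_SA.StmtA

/-! Module NBND of part P. -/

namespace SA.H21

open SA

theorem nbnd (hSort : SortStmt) (hTop : TopStmt) (hQ : QzeroStmt) : NboundStmt := by
  classical
  intro T n hn hV hkap hsep d hd1 hd2
  obtain ⟨s1, s2, s3, -⟩ := hSort T n
  by_cases huv : (gr T n).Q (d - 1) ≤ (gr T n).Q d
  · refine ⟨n - 1, by omega, by omega, ?_⟩
    unfold Nd
    exact le_max_of_le_right (by linarith)
  · rw [not_le] at huv
    set u := (gr T n).Q d with hu
    set v := (gr T n).Q (d - 1) with hv
    have hu55 : (gr T n).Q 55 ≤ u := s1 d 55 hd2 (by norm_num)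
    have hu0 : 0 ≤ u := s2 d
    -- number of barriers above x, for x in [u, v)
    have hcount : ∀ x, u ≤ x → x < v →
        ((Finset.range n).filter (fun m => x < Bn T m)).card = d := by
      intro x hux hxv
      rw [← (hTop T n hV x (hu55.trans hux)).2]
      have e : (Finset.range 56).filter (fun j => x < (gr T n).Q j) = Finset.range d := by
        ext j
        rw [Finset.mem_filter, Finset.mem_range, Finset.mem_range]
        constructor
        · rintro ⟨h1, h2⟩
          by_contra h3
          have := s1 d j (by omega) h1
          linarith
        · intro h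
          exact ⟨by omega, lt_of_lt_of_le hxv (s1 j (d - 1) (by omega) (by omega))⟩
      rw [e, Finset.card_range]
    have hS := hcount u le_rfl huv
    set S := (Finset.range n).filter (fun m => u < Bn T m) with hSdef
    have hge : ∀ m ∈ S, v ≤ Bn T m := by
      intro m hm
      by_contra h
      rw [not_le] at h
      have hm' := hm
      rw [hSdef, Finset.mem_filter] at hm'
      have hc := hcount (Bn T m) hm'.2.le h
      have hsub : (Finset.range n).filter (fun m' => Bn T m < Bn T m') ⊆ S.erase m := by
        intro m' hm2
        rw [Finset.mem_filter] at hm2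
        rw [Finset.mem_erase, hSdef, Finset.mem_filter]
        refine ⟨fun e => ?_, hm2.1, hm'.2.trans hm2.2⟩
        rw [e] at hm2
        exact lt_irrefl _ hm2.2
      have h2 := Finset.card_le_card hsub
      rw [Finset.card_erase_of_mem hm, hS, hc] at h2
      omega
    have hne : S.Nonempty := by
      rw [← Finset.card_pos, hS]
      omega
    set m := S.min' hne with hm
    have hmS : m ∈ S := Finset.min'_mem S hne
    have hmn : m < n := by
      have := hmS
      rw [hSdef, Finset.mem_filter, Finset.mem_range] at this
      exact this.1
    have hBm : u < Bn T m := by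
      have := hmS
      rw [hSdef, Finset.mem_filter, Finset.mem_range] at this
      exact this.2
    have hfirst : ∀ i < m, Bn T i ≤ u := by
      intro i hi
      by_contra h
      rw [not_le] at h
      have hiS : i ∈ S := by
        rw [hSdef, Finset.mem_filter, Finset.mem_range]
        exact ⟨by omega, h⟩
      have := Finset.min'_le S i hiS
      omega
    have hQ0 : (gr T m).Q 0 ≤ u := by
      rcases (hQ T m (fun i hi => hV i (hi.trans hmn))).2.1 with h | ⟨i, hi, h⟩
      · rw [h]
        exact hu0
      · rw [h]
        exact hfirst i hi
    -- pause times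
    have hkapge : ∀ i, i < n → ∀ J : Finset ℕ, (∀ j ∈ J, j < i ∧ Bn T i < Bn T j) →
        J.card ≤ kap T i := by
      intro i hi J hJ
      have h := (hTop T i (fun m hm => hV m (hm.trans hi)) (Bn T i) (hV i hi)).2
      have e : kap T i = ((Finset.range i).filter (fun m => Bn T i < Bn T m)).card := h
      rw [e]
      apply Finset.card_le_card
      intro j hj
      rw [Finset.mem_filter, Finset.mem_range]
      exact hJ j hj
    set lo := max (m + 1) 171 with hlo
    set P := (Finset.Ico lo n).filter (fun i => Bn T i ≤ u) with hP
    have hPmem : ∀ i, i ∈ P ↔ (lo ≤ i ∧ i < n) ∧ Bn T i ≤ u := by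
      intro i
      rw [hP, Finset.mem_filter, Finset.mem_Ico]
    have hlo1 : m + 1 ≤ lo := le_max_left _ _
    have hlo2 : 171 ≤ lo := le_max_right _ _
    have hpause : ∀ i ∈ P, 0 < kap T i := by
      intro i hi
      rw [hPmem] at hi
      have := hkapge i hi.1.2 {m} (by
        intro j hj
        rw [Finset.mem_singleton] at hj
        subst hj
        exact ⟨by omega, by linarith⟩)
      rw [Finset.card_singleton] at this
      omega
    have hpair : ∀ i ∈ P, ∀ i' ∈ P, i < i' → i' ≤ i + 9 := by
      intro i hi i' hi' hii
      have hi2 := (hPmem i).1 hi
      have hi2' := (hPmem i').1 hi'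
      rcases hsep i i' (by omega) hii hi2'.1.2 (hpause i hi) (hpause i' hi') with h | h
      · exact h
      · exfalso
        have h29 := hkapge i' hi2'.1.2 (Finset.Icc (i + 10) (i + 38)) (by
          intro j hj
          rw [Finset.mem_Icc] at hj
          refine ⟨by omega, ?_⟩
          by_contra hcon
          rw [not_lt] at hcon
          have hjP : j ∈ P := by
            rw [hPmem]
            exact ⟨⟨by omega, by omega⟩, by linarith [hi2'.2]⟩
          rcases hsep i j (by omega) (by omega) (by omega) (hpause i hi) (hpause j hjP) with h' | h'
          · omega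
          · omega)
        rw [Nat.card_Icc] at h29
        have := hkap i' (by omega) hi2'.1.2
        omega
    have hPcard : P.card ≤ 10 := by
      rcases P.eq_empty_or_nonempty with h | h
      · rw [h, Finset.card_empty]
        omega
      · have hsub : P ⊆ Finset.Icc (P.min' h) (P.min' h + 9) := by
          intro i hi
          rw [Finset.mem_Icc]
          have h1 := Finset.min'_le P i hi
          refine ⟨h1, ?_⟩
          rcases Nat.lt_or_ge (P.min' h) i with h2 | h2
          · exact hpair _ (Finset.min'_mem P h) i hi h2
          · omega
        have := Finset.card_le_card hsub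
        rw [Nat.card_Icc] at this
        omega
    have hrest : ((Finset.Ico lo n) \ P).card ≤ d - 1 := by
      have hsub : (Finset.Ico lo n) \ P ⊆ S.erase m := by
        intro i hi
        rw [Finset.mem_sdiff, Finset.mem_Ico] at hi
        rw [Finset.mem_erase, hSdef, Finset.mem_filter, Finset.mem_range]
        refine ⟨by omega, by omega, ?_⟩
        by_contra hcon
        rw [not_lt] at hcon
        exact hi.2 ((hPmem i).2 ⟨hi.1, hcon⟩)
      have := Finset.card_le_card hsub
      rw [Finset.card_erase_of_mem hmS, hS] at this
      exact this
    have htot : n - lo ≤ d - 1 + 10 := by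
      have h1 : (Finset.Ico lo n).card ≤ ((Finset.Ico lo n) \ P).card + P.card := by
        have := Finset.card_le_card (show Finset.Ico lo n ⊆ ((Finset.Ico lo n) \ P) ∪ P by
          intro i hi
          by_cases hiP : i ∈ P
          · exact Finset.mem_union_right _ hiP
          · exact Finset.mem_union_left _ (Finset.mem_sdiff.2 ⟨hi, hiP⟩))
        exact this.trans (Finset.card_union_le _ _)
      rw [Nat.card_Ico] at h1
      omega
    refine ⟨m, hmn, ?_, ?_⟩
    · rcases le_total (m + 1) 171 with h | h
      · rw [max_eq_right h] at hlo
        omega
      · rw [max_eq_left h] at hlo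
        omega
    · refine le_max_of_le_left ?_
      have := hge m hmS
      show v - u ≤ _
      linarith

end SA.H21
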