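import Pool.Agent.Helper88_SA.StmtN

/-! Module NROOT of part P: the three roots. -/

namespace SA.H21

open SA Filter Topology Polynomial

/-! ### closed form of gam -/

theorem gamF_closed {F : Type*} [Field F] (T x : F) (hx : x ≠ 1) (R : ℕ) :
    (1 - x) ^ 3 * gam T x R
      = x * (1 - x ^ R) - T * (1 - x) * ((R : F) - ((R : F) + 1) * x + x ^ (R + 1)) := by
  have h2 : (x - 1) ≠ 0 := sub_ne_zero.2 hx
  have h3 : (1 - x) ^ 3 * (x / (x - 1) ^ 2) = x * (1 - x) := by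
    field_simp
    ring
  induction R with
  | zero => simp [gam]
  | succ R ih =>
    have e : gam T x (R + 1) = x / (x - 1) ^ 2 - ((R : F) + 1) * T + x * gam T x R := rfl
    rw [e]
    have e2 : (1 - x) ^ 3 * (x / (x - 1) ^ 2 - ((R : F) + 1) * T + x * gam T x R)
        = (1 - x) ^ 3 * (x / (x - 1) ^ 2) - ((R : F) + 1) * T * (1 - x) ^ 3
          + x * ((1 - x) ^ 3 * gam T x R) := by ring
    rw [e2, h3, ih]
    push_cast
    ring

/-- the function G = (1-x)^3 gam -/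
def GG {F : Type*} [Field F] (T x : F) : F :=
  x * (1 - x ^ 56) - T * (1 - x) * (56 - 57 * x + x ^ 57)

theorem gam_zero {F : Type*} [Field F] (T x : F) (hx : x ≠ 1) (h : GG T x = 0) :
    gam T x 56 = 0 := by
  have h1 := gamF_closed T x hx 56
  have h2 : (1 - x) ^ 3 * gam T x 56 = 0 := by
    rw [h1]
    unfold GG at h
    push_cast
    rw [← h]
    ring
  rcases mul_eq_zero.1 h2 with h3 | h3
  · exact absurd (pow_eq_zero_iff (by norm_num) |>.1 h3) (sub_ne_zero.2 (Ne.symm hx))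
  · exact h3

/-! ### real roots -/

noncomputable def HR (T x : ℝ) : ℝ :=
  ∑ i ∈ Finset.range 56, x ^ (i + 1) - T * (56 - 57 * x + x ^ 57)

theorem HR_mul (T x : ℝ) : (1 - x) * HR T x = GG T x := by
  unfold HR GG
  have h := geom_sum_mul_neg x 56
  have e : ∑ i ∈ Finset.range 56, x ^ (i + 1) = x * ∑ i ∈ Finset.range 56, x ^ i := by
    rw [Finset.mul_sum]
    refine Finset.sum_congr rfl fun j _ => ?_
    ring
  rw [e]
  linear_combination x * h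

theorem pow_diff (l h a b : ℝ) (hl : 0 ≤ l) (hla : l ≤ a) (hab : a ≤ b) (hbh : b ≤ h) (n : ℕ) :
    ((n : ℝ) + 1) * l ^ n * (b - a) ≤ b ^ (n + 1) - a ^ (n + 1) ∧
      b ^ (n + 1) - a ^ (n + 1) ≤ ((n : ℝ) + 1) * h ^ n * (b - a) := by
  have hd : 0 ≤ b - a := by linarith
  have ha : 0 ≤ a := by linarith
  have hb : 0 ≤ b := by linarith
  induction n with
  | zero => simp
  | succ n ih =>
    obtain ⟨i1, i2⟩ := ih
    have e : b ^ (n + 1 + 1) - a ^ (n + 1 + 1)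
        = b * (b ^ (n + 1) - a ^ (n + 1)) + a ^ (n + 1) * (b - a) := by ring
    rw [e]
    have h0 : 0 ≤ b ^ (n + 1) - a ^ (n + 1) := sub_nonneg.2 (pow_le_pow_left₀ ha hab _)
    have p1 : l ^ (n + 1) ≤ a ^ (n + 1) := pow_le_pow_left₀ hl hla _
    have p2 : a ^ (n + 1) ≤ h ^ (n + 1) := pow_le_pow_left₀ ha (hab.trans hbh) _
    have hln : 0 ≤ ((n : ℝ) + 1) * l ^ n * (b - a) := by positivity
    constructor
    · have q1 : l * (((n : ℝ) + 1) * l ^ n * (b - a)) ≤ b * (b ^ (n + 1) - a ^ (n + 1)) :=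
        mul_le_mul (hla.trans hab) i1 hln hb
      have q2 : l ^ (n + 1) * (b - a) ≤ a ^ (n + 1) * (b - a) := mul_le_mul_of_nonneg_right p1 hd
      push_cast
      calc ((n : ℝ) + 1 + 1) * l ^ (n + 1) * (b - a)
          = l * (((n : ℝ) + 1) * l ^ n * (b - a)) + l ^ (n + 1) * (b - a) := by ring
        _ ≤ _ := add_le_add q1 q2
    · have q1 : b * (b ^ (n + 1) - a ^ (n + 1)) ≤ h * (((n : ℝ) + 1) * h ^ n * (b - a)) :=
        mul_le_mul hbh i2 h0 (hb.trans hbh)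
      have q2 : a ^ (n + 1) * (b - a) ≤ h ^ (n + 1) * (b - a) := mul_le_mul_of_nonneg_right p2 hd
      push_cast
      calc _ ≤ h * (((n : ℝ) + 1) * h ^ n * (b - a)) + h ^ (n + 1) * (b - a) := add_le_add q1 q2
        _ = _ := by ring

/-- a family of roots of strictly increasing functions, depending continuously on T -/
theorem root_family (c δ m M : ℝ) (I : Set ℝ) (K : ℝ → ℝ → ℝ) (hδ : 0 ≤ δ) (hm : 0 < m)
    (hM : 0 ≤ M) (hcont : ∀ T, Continuous (K T))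
    (hmono : ∀ T ∈ I, ∀ a b, c - δ ≤ a → a ≤ b → b ≤ c + δ → m * (b - a) ≤ K T b - K T a)
    (hT : ∀ T ∈ I, ∀ T' ∈ I, ∀ x, c - δ ≤ x → x ≤ c + δ → |K T x - K T' x| ≤ M * |T - T'|)
    (hc : ∀ T ∈ I, |K T c| ≤ m * δ) :
    ∃ f : ℝ → ℝ, ContinuousOn f I ∧ ∀ T ∈ I, |f T - c| ≤ δ ∧ K T (f T) = 0 := by
  classical
  have hex : ∀ T ∈ I, ∃ x, |x - c| ≤ δ ∧ K T x = 0 := by
    intro T hTI
    have h1 := hmono T hTI (c - δ) c le_rfl (by linarith) (by linarith)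
    have h2 := hmono T hTI c (c + δ) (by linarith) (by linarith) le_rfl
    have h3 := abs_le.1 (hc T hTI)
    have h4 : (0 : ℝ) ∈ Set.Icc (K T (c - δ)) (K T (c + δ)) := by
      constructor
      · nlinarith
      · nlinarith
    obtain ⟨x, hx, hx0⟩ := intermediate_value_Icc (by linarith : c - δ ≤ c + δ)
      (hcont T).continuousOn h4
    exact ⟨x, abs_le.2 ⟨by linarith [hx.1], by linarith [hx.2]⟩, hx0⟩
  choose! f hf using hex
  refine ⟨f, ?_, hf⟩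
  have hlip : ∀ T ∈ I, ∀ T' ∈ I, m * |f T - f T'| ≤ M * |T - T'| := by
    intro T hTI T' hTI'
    obtain ⟨a1, a2⟩ := hf T hTI
    obtain ⟨b1, b2⟩ := hf T' hTI'
    have a1' := abs_le.1 a1
    have b1' := abs_le.1 b1
    rcases le_total (f T) (f T') with h | h
    · have h1 := hmono T hTI (f T) (f T') (by linarith) h (by linarith)
      have h2 := abs_le.1 (hT T hTI T' hTI' (f T') (by linarith) (by linarith))
      rw [abs_of_nonpos (by linarith)]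
      nlinarith [h2.1, h2.2]
    · have h1 := hmono T hTI (f T') (f T) (by linarith) h (by linarith)
      have h2 := abs_le.1 (hT T hTI T' hTI' (f T') (by linarith) (by linarith))
      rw [abs_of_nonneg (by linarith)]
      nlinarith [h2.1, h2.2]
  rw [Metric.continuousOn_iff]
  intro T hTI ε hε
  refine ⟨m * ε / (M + 1), by positivity, fun T' hTI' hd => ?_⟩
  rw [Real.dist_eq] at hd ⊢
  have h1 := hlip T' hTI' T hTI
  have h2 : M * |T' - T| ≤ (M + 1) * |T' - T| :=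
    mul_le_mul_of_nonneg_right (by linarith) (abs_nonneg _)
  have h3 : (M + 1) * |T' - T| < m * ε := by
    rw [lt_div_iff₀ (by positivity)] at hd
    linarith
  have h4 : m * |f T' - f T| < m * ε := by linarith
  exact lt_of_mul_lt_mul_left h4 hm.le

theorem HR_cont (T : ℝ) : Continuous (HR T) := by
  unfold HR
  fun_prop

theorem T_bounds {T : ℝ} (hT : T ∈ Set.Icc Tlo Thi) : 36.95 ≤ T ∧ T ≤ 36.96 ∧
    0 ≤ T - Tlo ∧ T - Tlo ≤ 1 / 2 ^ 200 := by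
  obtain ⟨h1, h2⟩ := hT
  refine ⟨?_, ?_, by linarith, ?_⟩
  · refine le_trans ?_ h1
    unfold Tlo Tm
    norm_num
  · refine le_trans h2 ?_
    unfold Thi Tm
    norm_num
  · have : Thi - Tlo = 1 / 2 ^ 200 := by
      unfold Thi Tlo
      ring
    linarith

theorem GG_T (T c : ℝ) : GG T c = GG Tlo c - (T - Tlo) * ((1 - c) * (56 - 57 * c + c ^ 57)) := by
  unfold GG
  ring

theorem x0_num : |GG Tlo ((x0N : ℝ) / 10 ^ 65)| ≤ 1 / 10 ^ 60 := by
  unfold GG Tlo Tm x0N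
  rw [abs_le]
  constructor <;> norm_num

theorem z_num : |GG Tlo ((zN : ℝ) / 10 ^ 65)| ≤ 1 / 10 ^ 60 := by
  unfold GG Tlo Tm zN
  rw [abs_le]
  constructor <;> norm_num

theorem HR_small (c : ℝ) (hc1 : 0.01 ≤ |1 - c|) (hc2 : |(1 - c) * (56 - 57 * c + c ^ 57)| ≤ 10)
    (hc : |GG Tlo c| ≤ 1 / 10 ^ 60) {T : ℝ} (hT : T ∈ Set.Icc Tlo Thi) :
    |HR T c| ≤ 1 / 10 ^ 57 := by
  obtain ⟨-, -, t1, t2⟩ := T_bounds hT
  have h1 : |GG T c| ≤ 1 / 10 ^ 59 := by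
    rw [GG_T]
    refine (abs_sub _ _).trans ?_
    rw [abs_mul (T - Tlo), abs_of_nonneg t1]
    have h2 : (T - Tlo) * |(1 - c) * (56 - 57 * c + c ^ 57)| ≤ (1 / 2 ^ 200) * 10 :=
      mul_le_mul t2 hc2 (abs_nonneg _) (by positivity)
    refine (add_le_add hc h2).trans ?_
    norm_num
  rw [← HR_mul, abs_mul] at h1
  have h3 : 0.01 * |HR T c| ≤ |1 - c| * |HR T c| := mul_le_mul_of_nonneg_right hc1 (abs_nonneg _)
  have h4 : 0.01 * |HR T c| ≤ 1 / 10 ^ 59 := h3.trans h1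
  norm_num at h4 ⊢
  linarith

theorem P_bound (x : ℝ) (h0 : 0 ≤ x) (h1 : x ≤ 1.0381) : |56 - 57 * x + x ^ 57| ≤ 200 := by
  have h2 : x ^ 57 ≤ 1.0381 ^ 57 := pow_le_pow_left₀ h0 h1 _
  have h3 : 0 ≤ x ^ 57 := pow_nonneg h0 _
  have h4 : (1.0381 : ℝ) ^ 57 ≤ 9 := by norm_num
  rw [abs_le]
  constructor <;> linarith

theorem x0_family : ∃ f : ℝ → ℝ, ContinuousOn f (Set.Icc Tlo Thi) ∧ ∀ T ∈ Set.Icc Tlo Thi,
    |f T - (x0N : ℝ) / 10 ^ 65| ≤ 1 / 10 ^ 58 ∧ -HR T (f T) = 0 := by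
  have hcl : (1.038 : ℝ) ≤ (x0N : ℝ) / 10 ^ 65 - 1 / 10 ^ 58 := by
    unfold x0N
    norm_num
  have hch : (x0N : ℝ) / 10 ^ 65 + 1 / 10 ^ 58 ≤ 1.0381 := by
    unfold x0N
    norm_num
  refine root_family ((x0N : ℝ) / 10 ^ 65) (1 / 10 ^ 58) 7000 200 _ (fun T x => -HR T x)
    (by positivity) (by norm_num) (by norm_num) (fun T => (HR_cont T).neg) ?_ ?_ ?_
  · intro T hT a b ha hab hb
    obtain ⟨t1, t2, -, -⟩ := T_bounds hT
    have hla : (1.038 : ℝ) ≤ a := hcl.trans ha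
    have hbh : b ≤ 1.0381 := hb.trans hch
    have hd : 0 ≤ b - a := by linarith
    have e : -HR T b - -HR T a = T * ((b ^ 57 - a ^ 57) - 57 * (b - a))
        - ∑ i ∈ Finset.range 56, (b ^ (i + 1) - a ^ (i + 1)) := by
      unfold HR
      rw [Finset.sum_sub_distrib]
      ring
    rw [e]
    have h57 := (pow_diff 1.038 1.0381 a b (by norm_num) hla hab hbh 56).1
    have hsum : ∑ i ∈ Finset.range 56, (b ^ (i + 1) - a ^ (i + 1))
        ≤ (∑ i ∈ Finset.range 56, ((i : ℝ) + 1) * 1.0381 ^ i) * (b - a) := by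
      rw [Finset.sum_mul]
      exact Finset.sum_le_sum fun i _ => (pow_diff 1.038 1.0381 a b (by norm_num) hla hab hbh i).2
    have hn1 : (∑ i ∈ Finset.range 56, ((i : ℝ) + 1) * 1.0381 ^ i) ≤ 7100 := by
      norm_num [Finset.sum_range_succ]
    have hn2 : (398 : ℝ) ≤ (((56 : ℕ) : ℝ) + 1) * 1.038 ^ 56 - 57 := by norm_num
    have h1 : (398 : ℝ) * (b - a) ≤ (b ^ 57 - a ^ 57) - 57 * (b - a) := by
      have := mul_le_mul_of_nonneg_right hn2 hd
      linarith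
    have h2 : (36.95 : ℝ) * (398 * (b - a)) ≤ T * ((b ^ 57 - a ^ 57) - 57 * (b - a)) :=
      mul_le_mul t1 h1 (by positivity) (by linarith)
    have h3 := mul_le_mul_of_nonneg_right hn1 hd
    linarith
  · intro T _ T' _ x hx1 hx2
    have e : -HR T x - -HR T' x = (T - T') * (56 - 57 * x + x ^ 57) := by
      unfold HR
      ring
    rw [e, abs_mul, mul_comm]
    exact mul_le_mul_of_nonneg_right (P_bound x (by linarith) (by linarith)) (abs_nonneg _)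
  · intro T hT
    rw [abs_neg]
    refine (HR_small _ ?_ ?_ x0_num hT).trans ?_
    · rw [abs_sub_comm, abs_of_nonneg (by linarith)]
      linarith
    · have h1 := P_bound ((x0N : ℝ) / 10 ^ 65) (by linarith) (by linarith)
      rw [abs_mul, abs_sub_comm, abs_of_nonneg (by linarith)]
      have h2 : (x0N : ℝ) / 10 ^ 65 - 1 ≤ 0.05 := by linarith
      calc _ ≤ 0.05 * 200 := mul_le_mul h2 h1 (abs_nonneg _) (by norm_num)
        _ = 10 := by norm_num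
    · norm_num

theorem z_family : ∃ f : ℝ → ℝ, ContinuousOn f (Set.Icc Tlo Thi) ∧ ∀ T ∈ Set.Icc Tlo Thi,
    |f T - (zN : ℝ) / 10 ^ 65| ≤ 1 / 10 ^ 58 ∧ HR T (f T) = 0 := by
  have hcl : (0.9727 : ℝ) ≤ (zN : ℝ) / 10 ^ 65 - 1 / 10 ^ 58 := by
    unfold zN
    norm_num
  have hch : (zN : ℝ) / 10 ^ 65 + 1 / 10 ^ 58 ≤ 0.9728 := by
    unfold zN
    norm_num
  refine root_family ((zN : ℝ) / 10 ^ 65) (1 / 10 ^ 58) 1000 200 _ HR
    (by positivity) (by norm_num) (by norm_num) (fun T => HR_cont T) ?_ ?_ ?_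
  · intro T hT a b ha hab hb
    obtain ⟨t1, t2, -, -⟩ := T_bounds hT
    have hla : (0.9727 : ℝ) ≤ a := hcl.trans ha
    have hbh : b ≤ 0.9728 := hb.trans hch
    have hd : 0 ≤ b - a := by linarith
    have e : HR T b - HR T a = T * (57 * (b - a) - (b ^ 57 - a ^ 57))
        + ∑ i ∈ Finset.range 56, (b ^ (i + 1) - a ^ (i + 1)) := by
      unfold HR
      rw [Finset.sum_sub_distrib]
      ring
    rw [e]
    have h57 := (pow_diff 0.9727 0.9728 a b (by norm_num) hla hab hbh 56).2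
    have hsum : 0 ≤ ∑ i ∈ Finset.range 56, (b ^ (i + 1) - a ^ (i + 1)) :=
      Finset.sum_nonneg fun i _ => sub_nonneg.2 (pow_le_pow_left₀ (by linarith) hab _)
    have hn2 : (((56 : ℕ) : ℝ) + 1) * 0.9728 ^ 56 ≤ 13 := by norm_num
    have h1 : (44 : ℝ) * (b - a) ≤ 57 * (b - a) - (b ^ 57 - a ^ 57) := by
      have := mul_le_mul_of_nonneg_right hn2 hd
      linarith
    have h2 : (36.95 : ℝ) * (44 * (b - a)) ≤ T * (57 * (b - a) - (b ^ 57 - a ^ 57)) :=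
      mul_le_mul t1 h1 (by positivity) (by linarith)
    linarith
  · intro T _ T' _ x hx1 hx2
    have e : HR T x - HR T' x = -((T - T') * (56 - 57 * x + x ^ 57)) := by
      unfold HR
      ring
    rw [e, abs_neg, abs_mul, mul_comm]
    exact mul_le_mul_of_nonneg_right (P_bound x (by linarith) (by linarith)) (abs_nonneg _)
  · intro T hT
    refine (HR_small _ ?_ ?_ z_num hT).trans ?_
    · rw [abs_of_nonneg (by linarith)]
      linarith
    · have h1 := P_bound ((zN : ℝ) / 10 ^ 65) (by linarith) (by linarith)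
      rw [abs_mul, abs_of_nonneg (by linarith)]
      have h2 : 1 - (zN : ℝ) / 10 ^ 65 ≤ 0.05 := by linarith
      calc _ ≤ 0.05 * 200 := mul_le_mul h2 h1 (abs_nonneg _) (by norm_num)
        _ = 10 := by norm_num
    · norm_num

/-! ### the complex root -/

noncomputable def GP (T : ℂ) : ℂ[X] :=
  X * (1 - X ^ 56) - C T * (1 - X) * (C 56 - C 57 * X + X ^ 57)

def GGd (T x : ℂ) : ℂ :=
  1 - 57 * x ^ 56 - T * (-(56 - 57 * x + x ^ 57) + (1 - x) * (-57 + 57 * x ^ 56))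

theorem GP_eval (T x : ℂ) : (GP T).eval x = GG T x := by
  unfold GP GG
  simp

theorem GP_deriv (T x : ℂ) : (derivative (GP T)).eval x = GGd T x := by
  unfold GP GGd
  simp [derivative_mul]
  ring

theorem GP_deg (T : ℂ) : (GP T).natDegree ≤ 58 := by
  unfold GP
  compute_degree

theorem near_root (T c : ℂ) (δ : ℝ) (hδ : 0 < δ) (h : 58 * ‖GG T c‖ < δ * ‖GGd T c‖) :
    ∃ r, GG T r = 0 ∧ ‖r - c‖ ≤ δ := by
  by_cases h0 : GG T c = 0
  · exact ⟨c, h0, by simpa using hδ.le⟩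
  · by_contra hcon
    push Not at hcon
    have hne : (GP T).eval c ≠ 0 := by rwa [GP_eval]
    have hs := (IsAlgClosed.splits (GP T)).eval_derivative_div_eval_of_ne_zero hne
    rw [GP_deriv, GP_eval] at hs
    have hP0 : GP T ≠ 0 := by
      intro e
      rw [e] at hne
      simp at hne
    have hb : ‖GGd T c / GG T c‖ ≤ 58 * (1 / δ) := by
      rw [hs]
      refine (norm_multiset_sum_le _).trans ?_
      rw [Multiset.map_map]
      have hle : ∀ x ∈ Multiset.map ((fun z => ‖z‖) ∘ fun z => 1 / (c - z)) (GP T).roots,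
          x ≤ 1 / δ := by
        intro x hx
        obtain ⟨r, hr, rfl⟩ := Multiset.mem_map.1 hx
        have hr0 : GG T r = 0 := by
          rw [← GP_eval]
          exact (mem_roots hP0).1 hr
        have hd := hcon r hr0
        show ‖1 / (c - r)‖ ≤ 1 / δ
        rw [norm_div, norm_one, norm_sub_rev]
        exact one_div_le_one_div_of_le hδ hd.le
      refine (Multiset.sum_le_card_nsmul _ _ hle).trans ?_
      rw [Multiset.card_map, nsmul_eq_mul]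
      have hcard : ((GP T).roots.card : ℝ) ≤ 58 := by
        have := (card_roots' (GP T)).trans (GP_deg T)
        exact_mod_cast this
      exact mul_le_mul_of_nonneg_right hcard (by positivity)
    rw [norm_div, div_le_iff₀ (norm_pos_iff.2 h0)] at hb
    have h2 : δ * ‖GGd T c‖ ≤ δ * (58 * (1 / δ) * ‖GG T c‖) := mul_le_mul_of_nonneg_left hb hδ.le
    have h3 : δ * (58 * (1 / δ) * ‖GG T c‖) = 58 * ‖GG T c‖ := by
      field_simp
    linarith

/-! ### integer arithmetic -/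

def pmul (p q : ℤ × ℤ) : ℤ × ℤ := (p.1 * q.1 - p.2 * q.2, p.1 * q.2 + p.2 * q.1)
def ppow (p : ℤ × ℤ) : ℕ → ℤ × ℤ
  | 0 => (1, 0)
  | n + 1 => pmul (ppow p n) p
def toC (p : ℤ × ℤ) : ℂ := ⟨p.1, p.2⟩

theorem toC_mul (p q : ℤ × ℤ) : toC (pmul p q) = toC p * toC q := by
  apply Complex.ext <;> simp [toC, pmul]

theorem toC_pow (p : ℤ × ℤ) (n : ℕ) : toC (ppow p n) = toC p ^ n := by
  induction n with
  | zero =>
    apply Complex.ext <;> simp [toC, ppow]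
  | succ n ih => rw [ppow, toC_mul, ih, pow_succ]

def AA : ℤ × ℤ := (thReN, thImN)
def NN : ℤ := 10 ^ 65

def G1 : ℤ × ℤ :=
  (2 ^ 200 * (AA.1 * NN ^ 57 - (ppow AA 57).1 * NN)
    - Tm * (pmul (NN - AA.1, -AA.2) (56 * NN ^ 57 - 57 * NN ^ 56 * AA.1 + (ppow AA 57).1,
      -57 * NN ^ 56 * AA.2 + (ppow AA 57).2)).1,
   2 ^ 200 * (AA.2 * NN ^ 57 - (ppow AA 57).2 * NN)
    - Tm * (pmul (NN - AA.1, -AA.2) (56 * NN ^ 57 - 57 * NN ^ 56 * AA.1 + (ppow AA 57).1,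
      -57 * NN ^ 56 * AA.2 + (ppow AA 57).2)).2)

def G2 : ℤ × ℤ :=
  (2 ^ 200 * (NN ^ 57 - 57 * (ppow AA 56).1 * NN)
    - Tm * (-(56 * NN ^ 57 - 57 * NN ^ 56 * AA.1 + (ppow AA 57).1)
      + 57 * (pmul (NN - AA.1, -AA.2) (-NN ^ 56 + (ppow AA 56).1, (ppow AA 56).2)).1),
   2 ^ 200 * (-57 * (ppow AA 56).2 * NN)
    - Tm * (-(-57 * NN ^ 56 * AA.2 + (ppow AA 57).2)
      + 57 * (pmul (NN - AA.1, -AA.2) (-NN ^ 56 + (ppow AA 56).1, (ppow AA 56).2)).2))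

theorem G1_check : (|G1.1| ≤ 2 ^ 200 * 10 ^ 3710 ∧ |G1.2| ≤ 2 ^ 200 * 10 ^ 3710) := by
  decide +kernel

theorem G2_check : 1000 * 2 ^ 200 * NN ^ 57 ≤ |G2.1| := by
  decide +kernel

theorem toC_G1_gen (n n56 n57 t e : ℤ) (A u : ℤ × ℤ) :
    toC (e * (A.1 * n57 - u.1 * n)
      - t * (pmul (n - A.1, -A.2) (56 * n57 - 57 * n56 * A.1 + u.1, -57 * n56 * A.2 + u.2)).1,
      e * (A.2 * n57 - u.2 * n)
      - t * (pmul (n - A.1, -A.2) (56 * n57 - 57 * n56 * A.1 + u.1, -57 * n56 * A.2 + u.2)).2)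
    = (e : ℂ) * (toC A * n57 - toC u * n)
      - t * (((n : ℂ) - toC A) * (56 * n57 - 57 * n56 * toC A + toC u)) := by
  apply Complex.ext <;> simp [toC, pmul]

theorem toC_G2_gen (n n56 n57 t e : ℤ) (A u v : ℤ × ℤ) :
    toC (e * (n57 - 57 * v.1 * n)
      - t * (-(56 * n57 - 57 * n56 * A.1 + u.1)
        + 57 * (pmul (n - A.1, -A.2) (-n56 + v.1, v.2)).1),
      e * (-57 * v.2 * n)
      - t * (-(-57 * n56 * A.2 + u.2)
        + 57 * (pmul (n - A.1, -A.2) (-n56 + v.1, v.2)).2))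
    = (e : ℂ) * (n57 - 57 * toC v * n)
      - t * (-(56 * n57 - 57 * n56 * toC A + toC u)
        + 57 * (((n : ℂ) - toC A) * (-n56 + toC v))) := by
  apply Complex.ext <;> simp [toC, pmul]

noncomputable def cth : ℂ := ⟨(thReN : ℝ) / 10 ^ 65, (thImN : ℝ) / 10 ^ 65⟩

theorem NNr : ((NN : ℤ) : ℝ) = 10 ^ 65 := by norm_num [NN]

theorem NNc : ((NN : ℤ) : ℂ) = 10 ^ 65 := by norm_num [NN]

theorem toC_AA : toC AA = cth * ((NN : ℤ) : ℂ) := by
  have e : ((NN : ℤ) : ℂ) = (((NN : ℤ) : ℝ) : ℂ) := by simp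
  have h0 : ((NN : ℤ) : ℝ) ≠ 0 := by rw [NNr]; positivity
  rw [e]
  apply Complex.ext
  · simp only [toC, AA, cth, Complex.mul_re, Complex.ofReal_re, Complex.ofReal_im]
    rw [← NNr]
    generalize ((NN : ℤ) : ℝ) = N at h0 ⊢
    rw [Int.cast_natCast]
    field_simp
    ring
  · simp only [toC, AA, cth, Complex.mul_im, Complex.ofReal_re, Complex.ofReal_im]
    rw [← NNr]
    generalize ((NN : ℤ) : ℝ) = N at h0 ⊢
    rw [Int.cast_natCast]
    field_simp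
    ring

theorem TloC : ((Tm : ℤ) : ℂ) = ((2 : ℤ) : ℂ) ^ 200 * ((Tlo : ℝ) : ℂ) := by
  unfold Tlo
  push_cast
  field_simp

theorem gen1 (e t N c : ℂ) :
    e * (c * N * N ^ 57 - (c * N) ^ 57 * N)
      - e * t * ((N - c * N) * (56 * N ^ 57 - 57 * N ^ 56 * (c * N) + (c * N) ^ 57))
    = e * N ^ 58 * GG t c := by
  unfold GG
  ring

theorem gen2 (e t N c : ℂ) :
    e * (N ^ 57 - 57 * (c * N) ^ 56 * N)
      - e * t * (-(56 * N ^ 57 - 57 * N ^ 56 * (c * N) + (c * N) ^ 57)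
        + 57 * ((N - c * N) * (-N ^ 56 + (c * N) ^ 56)))
    = e * N ^ 57 * GGd t c := by
  unfold GGd
  ring

theorem toC_G1 : toC G1 = 2 ^ 200 * ((NN : ℤ) : ℂ) ^ 58 * GG ((Tlo : ℝ) : ℂ) cth := by
  have h := toC_G1_gen NN (NN ^ 56) (NN ^ 57) Tm (2 ^ 200) AA (ppow AA 57)
  have h1 : toC G1 = _ := h
  have e2 : ((2 : ℤ) : ℂ) = 2 := by norm_num
  rw [h1, toC_pow, toC_AA, Int.cast_pow, Int.cast_pow, Int.cast_pow, TloC, gen1, e2]

theorem toC_G2 : toC G2 = 2 ^ 200 * ((NN : ℤ) : ℂ) ^ 57 * GGd ((Tlo : ℝ) : ℂ) cth := by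
  have h := toC_G2_gen NN (NN ^ 56) (NN ^ 57) Tm (2 ^ 200) AA (ppow AA 57) (ppow AA 56)
  have h1 : toC G2 = _ := h
  have e2 : ((2 : ℤ) : ℂ) = 2 := by norm_num
  rw [h1, toC_pow, toC_pow, toC_AA, Int.cast_pow, Int.cast_pow, Int.cast_pow, TloC, gen2, e2]

theorem norm_toC_le (p : ℤ × ℤ) (B : ℤ) (h1 : |p.1| ≤ B) (h2 : |p.2| ≤ B) :
    ‖toC p‖ ≤ 2 * (B : ℝ) := by
  refine (Complex.norm_le_abs_re_add_abs_im _).trans ?_
  show |((p.1 : ℤ) : ℝ)| + |((p.2 : ℤ) : ℝ)| ≤ _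
  have e1 : |((p.1 : ℤ) : ℝ)| ≤ B := by exact_mod_cast h1
  have e2 : |((p.2 : ℤ) : ℝ)| ≤ B := by exact_mod_cast h2
  linarith

theorem G1_norm : ‖GG ((Tlo : ℝ) : ℂ) cth‖ ≤ 2 / 10 ^ 60 := by
  have h := norm_toC_le G1 (2 ^ 200 * 10 ^ 3710) G1_check.1 G1_check.2
  rw [toC_G1, norm_mul, norm_mul, norm_pow, norm_pow] at h
  have e2 : ‖(2 : ℂ)‖ = 2 := by simp
  have e10 : ‖((NN : ℤ) : ℂ)‖ = (10 : ℝ) ^ 65 := by
    rw [NNc, norm_pow]
    norm_num
  rw [e2, e10, Int.cast_mul, Int.cast_pow, Int.cast_pow] at h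
  have h3 : (10 : ℝ) ^ 3770 = ((10 : ℝ) ^ 65) ^ 58 := by
    rw [← pow_mul]
  have h4 : (10 : ℝ) ^ 3770 = 10 ^ 3710 * 10 ^ 60 := by
    rw [← pow_add]
  rw [← h3, h4] at h
  rw [le_div_iff₀ (by positivity)]
  have c2 : ((2 : ℤ) : ℝ) = 2 := by norm_num
  have c10 : ((10 : ℤ) : ℝ) = 10 := by norm_num
  rw [c2, c10] at h
  have hK : (0 : ℝ) < 10 ^ 3710 := by positivity
  generalize (10 : ℝ) ^ 3710 = K at h hK
  have hpos : (0 : ℝ) < 2 ^ 200 * K := by positivity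
  have h5 : (2 ^ 200 * K : ℝ) * (‖GG ((Tlo : ℝ) : ℂ) cth‖ * 10 ^ 60)
      ≤ (2 ^ 200 * K) * 2 := by
    calc _ = 2 ^ 200 * (K * 10 ^ 60) * ‖GG ((Tlo : ℝ) : ℂ) cth‖ := by ring
      _ ≤ _ := h
      _ = _ := by ring
  exact le_of_mul_le_mul_left h5 hpos

theorem G2_norm : 1000 ≤ ‖GGd ((Tlo : ℝ) : ℂ) cth‖ := by
  have h1 : (1000 * 2 ^ 200 * (NN : ℝ) ^ 57) ≤ |((G2.1 : ℤ) : ℝ)| := by
    have h0 := G2_check
    have h00 : (((1000 * 2 ^ 200 * NN ^ 57 : ℤ)) : ℝ) ≤ ((|G2.1| : ℤ) : ℝ) := Int.cast_le.2 h0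
    rw [Int.cast_abs, Int.cast_mul, Int.cast_mul, Int.cast_pow, Int.cast_pow] at h00
    have c2 : ((2 : ℤ) : ℝ) = 2 := by norm_num
    have c10 : ((1000 : ℤ) : ℝ) = 1000 := by norm_num
    rw [c2, c10] at h00
    exact h00
  have h2 : |((G2.1 : ℤ) : ℝ)| ≤ ‖toC G2‖ := Complex.abs_re_le_norm (toC G2)
  have h3 := h1.trans h2
  rw [toC_G2, norm_mul, norm_mul, norm_pow, norm_pow] at h3
  have e2 : ‖(2 : ℂ)‖ = 2 := by simp
  have e10 : ‖((NN : ℤ) : ℂ)‖ = (NN : ℝ) := by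
    rw [NNc, NNr, norm_pow]
    norm_num
  rw [e2, e10] at h3
  have hN : (0 : ℝ) < (NN : ℝ) := by rw [NNr]; positivity
  generalize ((NN : ℤ) : ℝ) = K at h3 hN
  have hpos : (0 : ℝ) < 2 ^ 200 * K ^ 57 := by positivity
  have h5 : (2 ^ 200 * K ^ 57 : ℝ) * 1000
      ≤ (2 ^ 200 * K ^ 57) * ‖GGd ((Tlo : ℝ) : ℂ) cth‖ := by linarith
  exact le_of_mul_le_mul_left h5 hpos

theorem cth_norm : ‖cth‖ ≤ 1.04 := by
  rw [Complex.norm_def]
  apply Real.sqrt_le_iff.2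
  refine ⟨by norm_num, ?_⟩
  rw [Complex.normSq_apply]
  unfold cth thReN thImN
  norm_num

theorem cth_re : (1.02 : ℝ) ≤ cth.re := by
  unfold cth thReN
  norm_num

theorem th_family (T : ℝ) (hT : T ∈ Set.Icc Tlo Thi) :
    ∃ th : ℂ, ‖th - cth‖ ≤ 1 / 10 ^ 58 ∧ gam (T : ℂ) th 56 = 0 := by
  obtain ⟨-, -, t1, t2⟩ := T_bounds hT
  have hc := cth_norm
  have hc0 := norm_nonneg cth
  have p57 : ‖cth ^ 57‖ ≤ 10 := by
    rw [norm_pow]
    exact (pow_le_pow_left₀ hc0 hc _).trans (by norm_num)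
  have p56 : ‖cth ^ 56‖ ≤ 10 := by
    rw [norm_pow]
    exact (pow_le_pow_left₀ hc0 hc _).trans (by norm_num)
  have q1 : ‖(1 : ℂ) - cth‖ ≤ 3 := by
    refine (norm_sub_le _ _).trans ?_
    rw [norm_one]
    linarith
  have q57c : ‖(57 : ℂ) * cth‖ ≤ 60 := by
    rw [norm_mul]
    have : ‖(57 : ℂ)‖ = 57 := by simp
    rw [this]
    linarith
  have q2 : ‖(56 : ℂ) - 57 * cth + cth ^ 57‖ ≤ 130 := by
    refine (norm_add_le _ _).trans ?_
    have h1 := norm_sub_le (56 : ℂ) (57 * cth)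
    have : ‖(56 : ℂ)‖ = 56 := by simp
    rw [this] at h1
    linarith
  have q3 : ‖(-57 : ℂ) + 57 * cth ^ 56‖ ≤ 630 := by
    refine (norm_add_le _ _).trans ?_
    rw [norm_mul, norm_neg]
    have : ‖(57 : ℂ)‖ = 57 := by simp
    rw [this]
    linarith
  have hTn : ‖((T - Tlo : ℝ) : ℂ)‖ ≤ 1 / 2 ^ 200 := by
    rw [Complex.norm_real, Real.norm_of_nonneg t1]
    exact t2
  have eG : GG (T : ℂ) cth = GG (Tlo : ℂ) cth
      - ((T - Tlo : ℝ) : ℂ) * ((1 - cth) * (56 - 57 * cth + cth ^ 57)) := by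
    unfold GG
    push_cast
    ring
  have eD : GGd (T : ℂ) cth = GGd (Tlo : ℂ) cth
      - ((T - Tlo : ℝ) : ℂ) * (-(56 - 57 * cth + cth ^ 57) + (1 - cth) * (-57 + 57 * cth ^ 56)) := by
    unfold GGd
    push_cast
    ring
  have b1 : ‖GG (T : ℂ) cth‖ ≤ 1 / 10 ^ 57 := by
    rw [eG]
    refine (norm_sub_le _ _).trans ?_
    rw [norm_mul ((T - Tlo : ℝ) : ℂ), norm_mul (1 - cth)]
    have h1 : ‖(1 : ℂ) - cth‖ * ‖(56 : ℂ) - 57 * cth + cth ^ 57‖ ≤ 3 * 130 :=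
      mul_le_mul q1 q2 (norm_nonneg _) (by norm_num)
    have h2 := mul_le_mul hTn h1 (by positivity) (by positivity)
    refine (add_le_add G1_norm h2).trans ?_
    norm_num
  have b2 : 999 ≤ ‖GGd (T : ℂ) cth‖ := by
    have h1 : ‖-((56 : ℂ) - 57 * cth + cth ^ 57) + (1 - cth) * (-57 + 57 * cth ^ 56)‖
        ≤ 130 + 3 * 630 := by
      refine (norm_add_le _ _).trans ?_
      rw [norm_neg, norm_mul (1 - cth)]
      exact add_le_add q2 (mul_le_mul q1 q3 (norm_nonneg _) (by norm_num))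
    have h2 : ‖((T - Tlo : ℝ) : ℂ) * (-((56 : ℂ) - 57 * cth + cth ^ 57)
        + (1 - cth) * (-57 + 57 * cth ^ 56))‖ ≤ (1 / 2 ^ 200) * (130 + 3 * 630) := by
      rw [norm_mul]
      exact mul_le_mul hTn h1 (norm_nonneg _) (by positivity)
    have h3 := norm_sub_norm_le (GGd (Tlo : ℂ) cth) (((T - Tlo : ℝ) : ℂ) *
      (-((56 : ℂ) - 57 * cth + cth ^ 57) + (1 - cth) * (-57 + 57 * cth ^ 56)))
    rw [← eD] at h3
    have h4 := G2_norm
    have h5 : ((1 / 2 ^ 200) * (130 + 3 * 630) : ℝ) ≤ 1 := by norm_num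
    linarith
  obtain ⟨r, hr, hrc⟩ := near_root (T : ℂ) cth (1 / 10 ^ 58) (by positivity) (by
    have h1 : (1 / 10 ^ 58 : ℝ) * 999 ≤ (1 / 10 ^ 58) * ‖GGd (T : ℂ) cth‖ :=
      mul_le_mul_of_nonneg_left b2 (by positivity)
    refine lt_of_lt_of_le ?_ h1
    refine lt_of_le_of_lt (mul_le_mul_of_nonneg_left b1 (by norm_num)) ?_
    norm_num)
  refine ⟨r, hrc, gam_zero _ _ ?_ hr⟩
  intro h1
  rw [h1] at hrc
  have h2 : |((1 : ℂ) - cth).re| ≤ 1 / 10 ^ 58 := (Complex.abs_re_le_norm _).trans hrc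
  have h3 := cth_re
  have h4 : ((1 : ℂ) - cth).re = 1 - cth.re := by simp
  rw [h4] at h2
  have h5 := (abs_le.1 h2).1
  norm_num at h5
  linarith

theorem nroot : RootsStmt := by
  obtain ⟨f, hf1, hf2⟩ := x0_family
  obtain ⟨g, hg1, hg2⟩ := z_family
  refine ⟨f, g, hf1, hg1, fun T hT => ?_⟩
  obtain ⟨th, h1, h2⟩ := th_family T hT
  obtain ⟨f1, f2⟩ := hf2 T hT
  obtain ⟨g1, g2⟩ := hg2 T hT
  refine ⟨th, ⟨f1, g1, h1, ?_, ?_, h2⟩⟩
  · apply gam_zero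
    · intro e
      rw [e] at f1
      have h5 := (abs_le.1 f1).1
      unfold x0N at h5
      norm_num at h5
    · rw [← HR_mul]
      have : HR T (f T) = 0 := by linarith
      rw [this, mul_zero]
  · apply gam_zero
    · intro e
      rw [e] at g1
      have h5 := (abs_le.1 g1).2
      unfold zN at h5
      norm_num at h5
    · rw [← HR_mul, g2, mul_zero]

end SA.H21
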