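import Pool.Agent.Helper88_SA.StmtD

/-! Modules RANGE of part DUAL. -/

namespace SA.H21

open SA

theorem range (hU : RangeUpStmt) (hL : RangeLoStmt) : RangeStmt := by
  intro T z κ N S y D hT1 hT2 hz1 hz2 hD hκ hsep
  have key : ∀ m n : ℕ, N ≤ n + m → 171 ≤ n →
      0.87 * S (n + 1) ≤ y n ∧ y n ≤ 1.2 * S (n + 1) := by
    intro m
    induction m with
    | zero =>
      intro n hn _
      have hy := hD.geo n (by simpa using hn)
      have hS := hD.S_pos (n + 1)
      have hzpos : (0 : ℝ) < z := by linarith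
      have hT1' : (36.95 : ℝ) ≤ T := by
        refine le_trans ?_ hT1
        norm_num [Tlo, Tm]
      have hT2' : T ≤ (36.96 : ℝ) := by
        refine le_trans hT2 ?_
        norm_num [Thi, Tm]
      have h1 : (0.87 : ℝ) ≤ T * (1 - z) / z := by
        rw [le_div_iff₀ hzpos]
        nlinarith
      have h2 : T * (1 - z) / z ≤ (1.2 : ℝ) := by
        rw [div_le_iff₀ hzpos]
        nlinarith
      rw [hy]
      exact ⟨mul_le_mul_of_nonneg_right h1 hS.le, mul_le_mul_of_nonneg_right h2 hS.le⟩
    | succ m ih =>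
      intro n hn h171
      have hj : ∀ j, n < j → 0.87 * S (j + 1) ≤ y j ∧ y j ≤ 1.2 * S (j + 1) :=
        fun j hj => ih j (by omega) (by omega)
      exact ⟨(hL T z κ N S y D hT1 hT2 hD hκ hsep n h171 hj).1,
        hU T z κ N S y D hT1 hT2 hD hκ hsep n h171 hj⟩
  intro n hn
  exact key N n (by omega) hn

end SA.H21
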