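import Pool.Agent.Helper88_SA.StmtP

/-! Module REF of part C: the first indices of the cycles. -/

namespace SA.H21

open SA Filter Topology

theorem per_bd {T x0 z : ℝ} {th : ℂ} (c : Ctx T x0 z th) :
    48.8557 ≤ per th ∧ per th ≤ 48.8559 := by
  have h := abs_le.1 c.nr.per_enc
  constructor <;> [have := h.1; have := h.2] <;> norm_num at this ⊢ <;> linarith

theorem ph_eq (T x0 : ℝ) (th : ℂ) (k : ℕ) :
    ph T x0 th k = pp T x0 th k - (cyc T x0 th k : ℝ) * per th := by
  unfold pp
  ring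

theorem refm (hWin : WinStmt) (hDrift : DriftStmt) (hCyc : CycbStmt) : RefStmt := by
  intro T x0 z th c k hk
  obtain ⟨hw1, -, hw3⟩ := hWin T x0 z th c k hk
  have hd := hDrift T x0 z th c k hk
  have hcb := hCyc T x0 z th c
  obtain ⟨p1, p2⟩ := per_bd c
  have hc0 : cyc T x0 th 0 = 0 := (hcb 0).2.2.2.2.2.2.1
  have hp0 : 10 ≤ pp T x0 th 0 := (hcb 0).2.2.2.2.2.2.2
  have hmono : ∀ i1 i2, i1 ≤ i2 → i2 ≤ k → cyc T x0 th i1 ≤ cyc T x0 th i2 :=
    fun i1 i2 h1 h2 => (hd i1 i2 h1 h2).1
  have hck : 0 ≤ cyc T x0 th k := by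
    rw [← hc0]
    exact hmono 0 k (Nat.zero_le _) le_rfl
  have basic : ∀ j : ℕ, (j : ℤ) ≤ cyc T x0 th k →
      ref T x0 th j ≤ k ∧ cyc T x0 th (ref T x0 th j) = j ∧ 9.96 ≤ pp T x0 th (ref T x0 th j) ∧
      79 ≤ cell T x0 th (ref T x0 th j) ∧
      (∀ i, i < ref T x0 th j → cyc T x0 th i < j) ∧
      (∀ i, ref T x0 th j ≤ i → i ≤ k → (j : ℤ) ≤ cyc T x0 th i) := by
    intro j hj
    have hmem : k ∈ {i : ℕ | (j : ℤ) ≤ cyc T x0 th i} := hj
    have h1 : ref T x0 th j ≤ k := Nat.sInf_le hmem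
    have h2 : (j : ℤ) ≤ cyc T x0 th (ref T x0 th j) := Nat.sInf_mem ⟨k, hmem⟩
    have h3 : ∀ i, i < ref T x0 th j → cyc T x0 th i < j := by
      intro i hi
      have := Nat.notMem_of_lt_sInf hi
      simpa using this
    have h4 : cyc T x0 th (ref T x0 th j) = j ∧ 9.96 ≤ pp T x0 th (ref T x0 th j) := by
      rcases Nat.eq_zero_or_pos (ref T x0 th j) with h0 | h0
      · rw [h0] at h2 ⊢
        rw [hc0] at h2 ⊢
        refine ⟨by omega, ?_⟩
        norm_num at hp0 ⊢
        linarith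
      · obtain ⟨i, hi⟩ : ∃ i, ref T x0 th j = i + 1 := ⟨ref T x0 th j - 1, by omega⟩
        have hik : i < k := by omega
        have h5 := hw1 i hik
        have h6 := h3 i (by omega)
        rw [hi] at h2 ⊢
        have h7 : cyc T x0 th (i + 1) = j := by omega
        have h8 : cyc T x0 th i = (j : ℤ) - 1 := by omega
        refine ⟨h7, ?_⟩
        have h9 : |dph T x0 th i| ≤ 0.027 := by
          refine le_trans ?_ (hw3 ((j : ℤ) - 1))
          refine Finset.single_le_sum (f := fun i => |dph T x0 th i|) (fun _ _ => abs_nonneg _) ?_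
          simp [hik, h8]
        have h10 := (abs_le.1 h9).1
        unfold dph at h10
        rw [ph_eq, ph_eq T x0 th i, h7, h8] at h10
        have h11 := (hcb i).1
        push_cast at h10
        norm_num at h10 ⊢
        linarith
    refine ⟨h1, h4.1, h4.2, ?_, h3, fun i hi1 hi2 => ?_⟩
    · unfold cell
      rw [Int.le_floor]
      have := h4.2
      norm_num at this ⊢
      linarith
    · have := hmono _ _ hi1 hi2
      rw [h4.1] at this
      exact this
  refine ⟨hck, ?_, ?_⟩
  · have hmem : 0 ∈ {i : ℕ | ((0 : ℕ) : ℤ) ≤ cyc T x0 th i} := by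
      show ((0 : ℕ) : ℤ) ≤ cyc T x0 th 0
      rw [hc0]
      simp
    exact Nat.le_zero.1 (Nat.sInf_le hmem)
  · intro j hj
    obtain ⟨b1, b2, b3, b4, b5, b6⟩ := basic j hj
    refine ⟨b1, b2, b3, b4, b5, b6, ?_, ?_⟩
    · intro hj1
      obtain ⟨c1, c2, c3, c4, c5, c6⟩ := basic (j + 1) (by push_cast; exact hj1)
      have hle : ref T x0 th j ≤ ref T x0 th (j + 1) := by
        by_contra h
        have := b5 _ (not_le.1 h)
        rw [c2] at this
        push_cast at this
        omega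
      have h1 := (hd _ _ hle c1).2.1
      rw [ph_eq, ph_eq T x0 th (ref T x0 th (j + 1)), b2, c2] at h1
      have h2 := (hcb (ref T x0 th j)).2.1
      have h3 := (hcb (ref T x0 th (j + 1))).2.1
      obtain ⟨L, hL⟩ := Nat.exists_eq_add_of_le hle
      have h4 := abs_le.1 h1
      rw [hL] at h4 h3 c3
      push_cast at h4
      have h5 : (47 : ℝ) < (L : ℝ) := by
        norm_num at h4 b3 c3 h2 h3
        linarith [h4.1, h4.2]
      have h6 : (L : ℝ) < 50 := by
        norm_num at h4 b3 c3 h2 h3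
        linarith [h4.1, h4.2]
      have h7 : 47 < L := by exact_mod_cast h5
      have h8 : L < 50 := by exact_mod_cast h6
      omega
    · intro hkj
      have h1 := (hd _ _ b1 le_rfl).2.1
      rw [ph_eq, ph_eq T x0 th k, b2, hkj] at h1
      have h2 := (hcb (ref T x0 th j)).2.1
      have h3 := (hcb k).1
      obtain ⟨L, hL⟩ := Nat.exists_eq_add_of_le b1
      have h4 := (abs_le.1 h1).1
      have h5 : ((k : ℕ) : ℝ) - (ref T x0 th j : ℝ) = (L : ℝ) := by
        have : ((k : ℕ) : ℝ) = (ref T x0 th j : ℝ) + (L : ℝ) := by exact_mod_cast hL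
        linarith
      rw [h5] at h4
      have h6 : (L : ℝ) < 49 := by
        norm_num at h4
        linarith
      have h7 : L < 49 := by exact_mod_cast h6
      omega

end SA.H21
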