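import Pool.Agent.Helper88_SA.StmtD

/-! Module ZENC of part DUAL. -/

namespace SA.H21

open SA

theorem gam_closed (T z : ℝ) (hz : z < 1) (R : ℕ) :
    (1 - z) ^ 3 * gam T z R
      = z * (1 - z ^ R) - T * (1 - z) * ((R : ℝ) - ((R : ℝ) + 1) * z + z ^ (R + 1)) := by
  have h1 : (1 - z) ≠ 0 := by linarith
  have h2 : (z - 1) ≠ 0 := by
    intro h
    apply h1
    linarith
  have h3 : (1 - z) ^ 3 * (z / (z - 1) ^ 2) = z * (1 - z) := by
    field_simp
    ring
  induction R with
  | zero => simp [gam]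
  | succ R ih =>
    have e : gam T z (R + 1) = z / (z - 1) ^ 2 - ((R : ℝ) + 1) * T + z * gam T z R := rfl
    rw [e]
    have e2 : (1 - z) ^ 3 * (z / (z - 1) ^ 2 - ((R : ℝ) + 1) * T + z * gam T z R)
        = (1 - z) ^ 3 * (z / (z - 1) ^ 2) - ((R : ℝ) + 1) * T * (1 - z) ^ 3
          + z * ((1 - z) ^ 3 * gam T z R) := by ring
    rw [e2, h3, ih]
    push_cast
    ring

theorem pow_sub_le (a b : ℝ) (ha : 0 ≤ a) (hab : a ≤ b) (hb : b ≤ 1) (n : ℕ) :
    b ^ n - a ^ n ≤ n * (b - a) := by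
  induction n with
  | zero => simp
  | succ n ih =>
    have e : b ^ (n + 1) - a ^ (n + 1) = b * (b ^ n - a ^ n) + a ^ n * (b - a) := by ring
    rw [e]
    have h1 : 0 ≤ b ^ n - a ^ n := sub_nonneg.2 (pow_le_pow_left₀ ha hab n)
    have h2 : a ^ n ≤ 1 := pow_le_one₀ ha (hab.trans hb)
    have h3 : b * (b ^ n - a ^ n) ≤ 1 * (b ^ n - a ^ n) := mul_le_mul_of_nonneg_right hb h1
    have h4 : a ^ n * (b - a) ≤ 1 * (b - a) := mul_le_mul_of_nonneg_right h2 (by linarith)
    push_cast
    linarith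

/-- the function g is decreasing -/
theorem g_anti (a b : ℝ) (ha : 0 ≤ a) (hab : a ≤ b) (hb : b ≤ 1) :
    56 - 57 * b + b ^ 57 ≤ 56 - 57 * a + a ^ 57 := by
  have h := pow_sub_le a b ha hab hb 57
  push_cast at h
  linarith

noncomputable def sg (z : ℝ) : ℝ := ∑ j ∈ Finset.range 56, z ^ (j + 1)

theorem sg_mul (z : ℝ) : sg z * (1 - z) = z * (1 - z ^ 56) := by
  have h := geom_sum_mul_neg z 56
  have e : sg z = z * ∑ j ∈ Finset.range 56, z ^ j := by
    rw [sg, Finset.mul_sum]
    refine Finset.sum_congr rfl fun j _ => ?_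
    ring
  rw [e, mul_assoc, h]

theorem sg_mono (a b : ℝ) (ha : 0 ≤ a) (hab : a ≤ b) : sg a ≤ sg b :=
  Finset.sum_le_sum fun j _ => pow_le_pow_left₀ ha hab (j + 1)

theorem zenc : ZencStmt := by
  intro T z hT1 hT2 hz0 hz1 hg
  have h1z : 0 < 1 - z := by linarith
  have hc := gam_closed T z hz1 56
  rw [hg, mul_zero] at hc
  have hc2 : sg z * (1 - z) = T * (56 - 57 * z + z ^ 57) * (1 - z) := by
    rw [sg_mul]
    push_cast at hc
    linarith
  have hc3 : sg z = T * (56 - 57 * z + z ^ 57) := mul_right_cancel₀ h1z.ne' hc2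
  have hTlo : (0 : ℝ) < Tlo := by
    unfold Tlo Tm
    positivity
  constructor
  · by_contra hlt
    push Not at hlt
    have hga := g_anti z 0.972748891922 hz0.le hlt.le (by norm_num)
    have hsa := sg_mono z 0.972748891922 hz0.le hlt.le
    have hsm := sg_mul 0.972748891922
    have hnum : (0.972748891922 : ℝ) * (1 - 0.972748891922 ^ 56)
        < Tlo * (56 - 57 * 0.972748891922 + 0.972748891922 ^ 57) * (1 - 0.972748891922) := by
      unfold Tlo Tm
      norm_num
    rw [← hsm] at hnum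
    have hnum2 : sg 0.972748891922 < Tlo * (56 - 57 * 0.972748891922 + 0.972748891922 ^ 57) :=
      lt_of_mul_lt_mul_right hnum (by norm_num)
    have hgpos : (0 : ℝ) ≤ 56 - 57 * z + z ^ 57 := by
      have := g_anti z 1 hz0.le hz1.le le_rfl
      norm_num at this
      linarith
    have h5 : Tlo * (56 - 57 * 0.972748891922 + 0.972748891922 ^ 57)
        ≤ Tlo * (56 - 57 * z + z ^ 57) := mul_le_mul_of_nonneg_left hga hTlo.le
    have h6 : Tlo * (56 - 57 * z + z ^ 57) ≤ T * (56 - 57 * z + z ^ 57) :=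
      mul_le_mul_of_nonneg_right hT1 hgpos
    linarith
  · by_contra hlt
    push Not at hlt
    have hga := g_anti 0.972748891924 z (by norm_num) hlt.le hz1.le
    have hsa := sg_mono 0.972748891924 z (by norm_num) hlt.le
    have hsm := sg_mul 0.972748891924
    have hnum : Thi * (56 - 57 * 0.972748891924 + 0.972748891924 ^ 57) * (1 - 0.972748891924)
        < (0.972748891924 : ℝ) * (1 - 0.972748891924 ^ 56) := by
      unfold Thi Tm
      norm_num
    rw [← hsm] at hnum
    have hnum2 : Thi * (56 - 57 * 0.972748891924 + 0.972748891924 ^ 57) < sg 0.972748891924 :=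
      lt_of_mul_lt_mul_right hnum (by norm_num)
    have hgpos : (0 : ℝ) ≤ 56 - 57 * z + z ^ 57 := by
      have := g_anti z 1 hz0.le hz1.le le_rfl
      norm_num at this
      linarith
    have hThi : (0 : ℝ) ≤ Thi := by
      unfold Thi Tm
      positivity
    have h5 : Thi * (56 - 57 * z + z ^ 57)
        ≤ Thi * (56 - 57 * 0.972748891924 + 0.972748891924 ^ 57) :=
      mul_le_mul_of_nonneg_left hga hThi
    have h6 : T * (56 - 57 * z + z ^ 57) ≤ Thi * (56 - 57 * z + z ^ 57) :=
      mul_le_mul_of_nonneg_right hT2 hgpos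
    linarith

end SA.H21
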